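import Pool.Agent.Helper36.FT.Weighted3

/-!
# MP_a01ab0_co: Fejes Tóth's sum of acute angles, configurations on at most `d + 3` lines

For every `d ≥ 1` and every `N`: if `N` unit vectors of `ℝ^(d+1)` span at most `d + 3` different
lines, then the sum of the non-obtuse angles is at most its value at the periodic orthonormal
configuration of length `N`. In particular this holds for all `N ≤ d + 3`.

Proof. Let `w i j = arcsin |⟨x i, x j⟩|` be the complements of the angles.

(1) `∑_{i<j} w i j ≥ π / 2` for linearly dependent unit vectors (`FT.dependent`, in every real inner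
product space). Induction on the number `n` of vectors: if the sum is smaller than `π / 2`, then
there is a vector `u = x k` with `S = ∑_j w k j` at most `2 / n` times the sum. Project the other
vectors to the complement of `u` and normalise them; they are dependent, and the new weights are at
most `s i j = arcsin ((sin (w i j) + sin (a i) sin (a j)) / (cos (a i) cos (a j)))`, where
`a i = w k i`. As a function of `w i j` this is convex, so that the sum of the `s i j` is at most a
convex combination of its values in two extreme cases: all `w i j` are zero, or only one of them is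
not zero; in both cases it is at most `π / 2` if `S ≤ π / 4`, and the inequality is strict, a
contradiction to the induction hypothesis. Three vectors are treated separately.

(2) `∑_{i<j} w i j ≥ π` for `D + 2` unit vectors of a space of dimension `D`
(`Pool.Agent.Helper3.AA.two`). One vector `x` is moved on a great circle orthogonal to the vectors
which are orthogonal to `x`; between two zeros of the inner products the sum is concave, so that it
does not increase until `x` is orthogonal to all but at most two of the other vectors `y`, `z`. Then
induction on `D` by projecting `y`, `z` to the complement of `x`: a function of two angles, again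
concave in each of them on the cells, so that only the corners and one transcendental curve remain,
where an elementary trigonometric inequality gives the bound.

(3) Let the vectors be on the lines of `d + 3` unit vectors `y k`, with multiplicities
`a1 ≤ a2 ≤ a3 ≤ ... `. By (1) and (2), `∑ w k l ≥ π` over all pairs and `≥ π / 2` over the pairs
without a given `k`. Linear programming duality gives
`∑_{k<l} m k m l w k l ≥ (a1 a4 + a2 a3) π / 2` if `a4 ≤ a2 + a3`, and
`≥ (a1 a2 + a1 a3 + a2 a3) π / 2` otherwise. So the sum of the angles is at most `π / 2` times the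
number of the pairs of vectors which are not in the same class, where two pairs of classes or three
classes are joined; there are `d + 1` classes, and Turán's theorem gives the bound.
-/

set_option autoImplicit false

open Real Finset

namespace Pool.Agent.Results.MP_a01ab0_co.DPlusThreeLines

/-- The non-obtuse angle between the lines spanned by the unit vectors `x` and `y`. -/
noncomputable def angle {d : ℕ} (x y : EuclideanSpace ℝ (Fin (d + 1))) : ℝ :=
  arccos |inner ℝ x y|

/-- The sum of the angles over all ordered pairs (the terms with `i = j` are zero for unit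
vectors). -/
noncomputable def energy {d N : ℕ} (x : Fin N → EuclideanSpace ℝ (Fin (d + 1))) : ℝ :=
  ∑ i, ∑ j, angle (x i) (x j)

/-- The periodic orthonormal configuration: the vectors `e 0, ..., e d` of an orthonormal family are
repeated periodically. -/
def IsPeriodicOrthonormal {d N : ℕ} (p : Fin N → EuclideanSpace ℝ (Fin (d + 1))) : Prop :=
  ∃ e : Fin (d + 1) → EuclideanSpace ℝ (Fin (d + 1)), Orthonormal ℝ e ∧
    ∀ i : Fin N, p i = e ⟨i % (d + 1), Nat.mod_lt _ (Nat.succ_pos d)⟩

theorem energy_periodic {d N : ℕ} {p : Fin N → EuclideanSpace ℝ (Fin (d + 1))}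
    (hp : IsPeriodicOrthonormal p) : energy p =
      ∑ i : Fin N, ∑ j : Fin N, (if (i : ℕ) % (d + 1) = (j : ℕ) % (d + 1) then 0 else π / 2) := by
  obtain ⟨e, he, hpe⟩ := hp
  unfold energy
  refine sum_congr rfl fun i _ => sum_congr rfl fun j _ => ?_
  unfold angle
  rw [hpe i, hpe j, orthonormal_iff_ite.1 he]
  by_cases h : (i : ℕ) % (d + 1) = (j : ℕ) % (d + 1)
  · rw [if_pos h, if_pos (Fin.ext h)]
    simp
  · rw [if_neg h, if_neg fun h' => h (congrArg Fin.val h')]
    simp

/-- Unit vectors on the same line are equal up to the sign. -/
theorem eq_or_neg {d : ℕ} {x y : EuclideanSpace ℝ (Fin (d + 1))} (hx : ‖x‖ = 1) (hy : ‖y‖ = 1)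
    (h : Submodule.span ℝ {x} = Submodule.span ℝ {y}) : x = y ∨ x = -y := by
  have h1 : x ∈ Submodule.span ℝ {y} := h ▸ Submodule.mem_span_singleton_self x
  obtain ⟨t, rfl⟩ := Submodule.mem_span_singleton.1 h1
  rw [norm_smul, hy, mul_one, Real.norm_eq_abs] at hx
  rcases (abs_eq zero_le_one).1 hx with rfl | rfl
  · left; rw [one_smul]
  · right; rw [neg_smul, one_smul]

/-- **Fejes Tóth's conjecture on the sum of acute angles for the configurations of any number of
points of `S^d`, `d ≥ 1`, on at most `d + 3` lines.** -/
theorem result (d N : ℕ) (hd : 1 ≤ d) (x : Fin N → EuclideanSpace ℝ (Fin (d + 1))) (hx : ∀ i, ‖x i‖ = 1)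
    (hline : (Set.range fun i => Submodule.span ℝ {x i}).ncard ≤ d + 3)
    (p : Fin N → EuclideanSpace ℝ (Fin (d + 1))) (hp : IsPeriodicOrthonormal p) :
    energy x ≤ energy p := by
  obtain ⟨e, rfl⟩ : ∃ e, d = e + 1 := ⟨d - 1, by omega⟩
  classical
  set l : Fin N → Submodule ℝ (EuclideanSpace ℝ (Fin (e + 1 + 1))) := fun i =>
    Submodule.span ℝ {x i} with hl
  obtain ⟨f⟩ : Nonempty (Set.range l ↪ Fin (e + 4)) := by
    apply Function.Embedding.nonempty_of_card_le
    rw [Fintype.card_fin, ← Nat.card_eq_fintype_card, Nat.card_coe_set_eq]
    exact hline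
  set c : Fin N → Fin (e + 4) := fun i => f ⟨l i, i, rfl⟩ with hc
  set y : Fin (e + 4) → EuclideanSpace ℝ (Fin (e + 1 + 1)) := fun k =>
    if h : ∃ i, c i = k then x h.choose else EuclideanSpace.single 0 1 with hy
  have hy1 : ∀ k, ‖y k‖ = 1 := by
    intro k
    simp only [hy]
    split_ifs with h
    · exact hx _
    · simp
  have hxy : ∀ i, x i = y (c i) ∨ x i = -y (c i) := by
    intro i
    have h : ∃ i', c i' = c i := ⟨i, rfl⟩
    have h1 : y (c i) = x h.choose := by simp only [hy, dif_pos h]
    have h2 := h.choose_spec
    have h3 : l h.choose = l i := congrArg Subtype.val (f.injective h2)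
    rw [h1]
    exact eq_or_neg (hx _) (hx _) h3.symm
  have habs : ∀ i j, |inner ℝ (x i) (x j)| = |inner ℝ (y (c i)) (y (c j))| := by
    intro i j
    rcases hxy i with h1 | h1 <;> rcases hxy j with h2 | h2 <;>
      simp only [h1, h2, inner_neg_left, inner_neg_right, abs_neg, neg_neg]
  rw [energy_periodic hp]
  have h1 : energy x = ∑ i, ∑ j, arccos |inner ℝ (y (c i)) (y (c j))| := by
    unfold energy angle
    refine sum_congr rfl fun i _ => sum_congr rfl fun j _ => ?_
    rw [habs]
  rw [h1]
  exact Pool.Agent.Helper36.FT.weighted3 y hy1 c

end Pool.Agent.Results.MP_a01ab0_co.DPlusThreeLines
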